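import Mathlib

/-!
# Big constant fields
-/

set_option autoImplicit false

namespace Pool.Agent.TH444.WC

/-- the elements algebraic over `K(t ω : ω ≠ ω₀)` -/
noncomputable def cc (K : Type) {U Ω : Type} [Field K] [Field U] [Algebra K U] (t : Ω → U)
    (ω₀ : Ω) : IntermediateField K U :=
  (algebraicClosure (IntermediateField.adjoin K (t '' {ω₀}ᶜ)) U).restrictScalars K

section
variable {K U Ω : Type} [Field K] [Field U] [Algebra K U] (t : Ω → U) (ω₀ : Ω)

theorem mem_cc {z : U} : z ∈ cc K t ω₀ ↔
    IsAlgebraic (IntermediateField.adjoin K (t '' {ω₀}ᶜ)) z := by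
  change z ∈ algebraicClosure (IntermediateField.adjoin K (t '' {ω₀}ᶜ)) U ↔ _
  exact mem_algebraicClosure_iff

theorem mem_cc_of_isAlgebraic (z : U) (hz : IsAlgebraic K z) : z ∈ cc K t ω₀ :=
  (mem_cc t ω₀).2 (hz.tower_top _)

theorem mem_cc_of_ne (ω : Ω) (h : ω ≠ ω₀) : t ω ∈ cc K t ω₀ := by
  rw [mem_cc]
  exact isAlgebraic_algebraMap
    (⟨t ω, IntermediateField.subset_adjoin K _ ⟨ω, h, rfl⟩⟩ :
      IntermediateField.adjoin K (t '' {ω₀}ᶜ))

theorem mem_cc_of_isAlgebraic_cc (z : U) (hz : IsAlgebraic (cc K t ω₀) z) : z ∈ cc K t ω₀ := by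
  rw [mem_cc]
  have h1 : IsAlgebraic (algebraicClosure (IntermediateField.adjoin K (t '' {ω₀}ᶜ)) U) z := hz
  exact h1.restrictScalars _

theorem transcendental_cc (ht : AlgebraicIndependent K t) : Transcendental (cc K t ω₀) (t ω₀) := by
  have h1 : Transcendental (IntermediateField.adjoin K (t '' {ω₀}ᶜ)) (t ω₀) :=
    IntermediateField.transcendental_adjoin_iff.2 (ht.transcendental_adjoin (by simp))
  exact h1.algebraicClosure

end

/-- The image of an algebraic extension of `K(X)` lies in the constants, if `X` does. -/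
theorem image_mem_cc {K U Ω F : Type} [Field K] [Field U] [Algebra K U] (t : Ω → U) (ω₀ : Ω)
    [Field F] [Algebra (RatFunc K) F] [Algebra K F] [IsScalarTower K (RatFunc K) F]
    [Algebra.IsAlgebraic (RatFunc K) F] (j : F →+* U)
    (hjK : ∀ k : K, j (algebraMap K F k) = algebraMap K U k)
    (hjt : j (algebraMap (RatFunc K) F RatFunc.X) ∈ cc K t ω₀) (x : F) : j x ∈ cc K t ω₀ := by
  have h1 : ∀ y : RatFunc K, j (algebraMap (RatFunc K) F y) ∈ cc K t ω₀ := by
    intro y
    induction y using RatFunc.induction_on with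
    | _ p q hq =>
      rw [map_div₀, map_div₀]
      have h2 : ∀ p : Polynomial K,
          j (algebraMap (RatFunc K) F (algebraMap (Polynomial K) (RatFunc K) p)) ∈ cc K t ω₀ := by
        intro p
        induction p using Polynomial.induction_on with
        | C a =>
          have h3 : algebraMap (Polynomial K) (RatFunc K) (Polynomial.C a) =
            algebraMap K (RatFunc K) a := rfl
          rw [h3, ← IsScalarTower.algebraMap_apply K (RatFunc K) F, hjK]
          exact (cc K t ω₀).algebraMap_mem a
        | add p q hp hq =>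
          rw [map_add, map_add, map_add]
          exact add_mem hp hq
        | monomial n a h =>
          rw [pow_succ, ← mul_assoc, map_mul, map_mul, map_mul]
          refine mul_mem h ?_
          rw [RatFunc.algebraMap_X]
          exact hjt
      exact div_mem (h2 p) (h2 q)
  apply mem_cc_of_isAlgebraic_cc
  obtain ⟨g, hg0, hg⟩ := Algebra.IsAlgebraic.isAlgebraic (R := RatFunc K) x
  let κ : RatFunc K →+* cc K t ω₀ :=
    (j.comp (algebraMap (RatFunc K) F)).codRestrict (cc K t ω₀).toSubfield h1
  refine ⟨g.map κ, ?_, ?_⟩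
  · rwa [Ne, Polynomial.map_eq_zero]
  · rw [Polynomial.aeval_def, Polynomial.eval₂_map]
    have h4 : (algebraMap (cc K t ω₀) U).comp κ = j.comp (algebraMap (RatFunc K) F) := rfl
    rw [h4]
    have h5 : Polynomial.eval₂ (j.comp (algebraMap (RatFunc K) F)) (j x) g =
      j (Polynomial.aeval x g) := by
      rw [Polynomial.aeval_def, Polynomial.hom_eval₂]
    rw [h5, hg, map_zero]

end Pool.Agent.TH444.WC
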