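import Pool.Agent.TH444.WC.Gal
import Pool.Agent.TH444.WC.Const
import Pool.Agent.H298R2.Kuyk5

/-!
# The homomorphism to the wreath product
-/

set_option autoImplicit false

open Polynomial

namespace Pool.Agent.TH444.WC

section phi

variable {K L Ω Q U : Type} [Field K] [Field L] [Algebra K L] [FiniteDimensional K L] [IsGalois K L]
  [Fintype Ω] [DecidableEq Ω] [MulAction (L ≃ₐ[K] L) Ω]
  [Field Q] [Algebra (MvPolynomial Ω K) Q] [IsFractionRing (MvPolynomial Ω K) Q]
  [Algebra K Q] [IsScalarTower K (MvPolynomial Ω K) Q] [Field U] [Algebra Q U] [IsAlgClosure Q U]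
  [Algebra K U] [IsScalarTower K Q U] [Algebra L U] [IsScalarTower K L U]

omit [IsAlgClosure Q U] [IsGalois K L] [MulAction (L ≃ₐ[K] L) Ω] in
theorem L_mem_cc (t : Ω → U) (ω₀ : Ω) (x : L) : algebraMap L U x ∈ cc K t ω₀ :=
  mem_cc_of_isAlgebraic t ω₀ _ ((Algebra.IsAlgebraic.isAlgebraic (R := K) x).algebraMap)

omit [IsAlgClosure Q U] [IsGalois K L] [MulAction (L ≃ₐ[K] L) Ω] in
theorem Q_mem_adjoin (c d : Ω → Ω → L)
    (hd : ∀ i j, ∑ ω, d i ω * c j ω = if i = j then 1 else 0) (ω₀ : Ω) (q : Q) :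
    algebraMap Q U q ∈ IntermediateField.adjoin (cc K (tt K Q U c) ω₀) {tt K Q U c ω₀} := by
  have hcc : ∀ z ∈ cc K (tt K Q U c) ω₀,
      z ∈ IntermediateField.adjoin (cc K (tt K Q U c) ω₀) {tt K Q U c ω₀} := fun z hz =>
    (IntermediateField.adjoin (cc K (tt K Q U c) ω₀) {tt K Q U c ω₀}).algebraMap_mem ⟨z, hz⟩
  have htt : ∀ ω, tt K Q U c ω ∈
      IntermediateField.adjoin (cc K (tt K Q U c) ω₀) {tt K Q U c ω₀} := by
    intro ω
    by_cases h : ω = ω₀
    · subst h
      exact IntermediateField.subset_adjoin _ _ rfl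
    · exact hcc _ (mem_cc_of_ne _ _ ω h)
  have hyy : ∀ i, yy K Ω Q U i ∈
      IntermediateField.adjoin (cc K (tt K Q U c) ω₀) {tt K Q U c ω₀} := by
    intro i
    rw [yy_eq (K := K) (L := L) c d hd i]
    refine sum_mem fun ω _ => mul_mem (hcc _ (L_mem_cc _ _ _)) (htt ω)
  have hp : ∀ p : MvPolynomial Ω K, algebraMap Q U (algebraMap (MvPolynomial Ω K) Q p) ∈
      IntermediateField.adjoin (cc K (tt K Q U c) ω₀) {tt K Q U c ω₀} := by
    intro p
    induction p using MvPolynomial.induction_on with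
    | C a =>
      have h1 : (MvPolynomial.C a : MvPolynomial Ω K) = algebraMap K (MvPolynomial Ω K) a := rfl
      rw [h1, ← IsScalarTower.algebraMap_apply K (MvPolynomial Ω K) Q,
        ← IsScalarTower.algebraMap_apply K Q U]
      exact hcc _ ((cc K (tt K Q U c) ω₀).algebraMap_mem a)
    | add p q hp hq =>
      rw [map_add, map_add]; exact add_mem hp hq
    | mul_X p i hp =>
      rw [map_mul, map_mul]; exact mul_mem hp (hyy i)
  obtain ⟨p, r, -, rfl⟩ := IsFractionRing.div_surjective (A := MvPolynomial Ω K) q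
  rw [map_div₀]
  exact div_mem (hp p) (hp r)

omit [IsAlgClosure Q U] [IsGalois K L] [MulAction (L ≃ₐ[K] L) Ω] in
theorem tt_mem_adjoin (c : Ω → Ω → L) (ω₀ : Ω) :
    tt K Q U c ω₀ ∈ IntermediateField.adjoin Q (cc K (tt K Q U c) ω₀ : Set U) := by
  unfold tt
  refine sum_mem fun i _ => mul_mem ?_ ?_
  · exact IntermediateField.subset_adjoin _ _ (L_mem_cc (tt K Q U c) ω₀ (c i ω₀))
  · exact IntermediateField.algebraMap_mem _ _

theorem exists_phi [CharZero Q] [CharZero U] (F : Type) [Field F] [Algebra (RatFunc K) F]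
    [Algebra K F] [IsScalarTower K (RatFunc K) F] [FiniteDimensional (RatFunc K) F]
    [IsGalois (RatFunc K) F] (hreg : ∀ y : F, IsAlgebraic K y → y ∈ Set.range (algebraMap K F))
    (c d : Ω → Ω → L) (hc : ∀ i (ρ : L ≃ₐ[K] L) ω, c i (ρ • ω) = ρ (c i ω))
    (hd : ∀ i j, ∑ ω, d i ω * c j ω = if i = j then 1 else 0)
    (hd' : ∀ ω ω', ∑ i, c i ω * d i ω' = if ω = ω' then 1 else 0)
    {A : Type} [Group A] (γ : (F ≃ₐ[RatFunc K] F) ≃* A) :
    ∃ (j : Ω → F →+* U) (Φ : (U ≃ₐ[Q] U) →* ((Ω → A) ⋊[mulAutArrow] (L ≃ₐ[K] L))),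
      (∀ ω (k : K), j ω (algebraMap K F k) = algebraMap K U k) ∧
      (∀ ω, j ω (algebraMap (RatFunc K) F RatFunc.X) = tt K Q U c ω) ∧
      Function.Surjective Φ ∧ (∀ σ, (Φ σ).right = res K L Q U σ) ∧
      (∀ f : Ω → A, ∃ σ : U ≃ₐ[Q] U, (∀ y : U, IsAlgebraic K y → σ y = y) ∧
        Φ σ = SemidirectProduct.inl f) ∧
      (∀ σ : U ≃ₐ[Q] U, (∀ ω x, σ (j ω x) = j ω x) →
        (∀ x : L, σ (algebraMap L U x) = algebraMap L U x) → Φ σ = 1) := by
  classical
  have hacU : IsAlgClosed U := IsAlgClosure.isAlgClosed Q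
  have hindep : AlgebraicIndependent K (tt K Q U c) := indep_tt c d hd'
  have hj : ∀ ω, ∃ j : F →+* U, (∀ k : K, j (algebraMap K F k) = algebraMap K U k) ∧
      j (algebraMap (RatFunc K) F RatFunc.X) = tt K Q U c ω := fun ω =>
    exists_j (tt K Q U c ω) (hindep.transcendental ω)
  choose j hjK hjt using hj
  have hal : ∀ (σ : U ≃ₐ[Q] U) (ω : Ω), ∃ a : F ≃ₐ[RatFunc K] F,
      ∀ x, σ (j ω x) = j (res K L Q U σ • ω) (a x) := by
    intro σ ω
    refine differ ((σ : U →+* U).comp (j ω)) (j (res K L Q U σ • ω)) ?_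
    intro x
    have h := ratFunc_hom_ext (((σ : U →+* U).comp (j ω)).comp (algebraMap (RatFunc K) F))
      ((j (res K L Q U σ • ω)).comp (algebraMap (RatFunc K) F)) ?_ ?_
    · exact RingHom.congr_fun h x
    · intro k
      simp only [RingHom.comp_apply]
      rw [← IsScalarTower.algebraMap_apply K (RatFunc K) F, hjK, hjK,
        IsScalarTower.algebraMap_apply K Q U]
      exact σ.commutes _
    · simp only [RingHom.comp_apply]
      rw [hjt, hjt]
      exact sigma_tt c hc σ ω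
  choose al hal' using hal
  have hal_eq : ∀ (σ : U ≃ₐ[Q] U) (ω : Ω) (b : F ≃ₐ[RatFunc K] F),
      (∀ x, σ (j ω x) = j (res K L Q U σ • ω) (b x)) → al σ ω = b := by
    intro σ ω b hb
    apply differ_unique (j (res K L Q U σ • ω))
    intro x
    rw [← hal', hb]
  have hmul : ∀ (σ τ : U ≃ₐ[Q] U) (ω : Ω),
      al (σ * τ) ω = al σ (res K L Q U τ • ω) * al τ ω := by
    intro σ τ ω
    apply hal_eq
    intro x
    rw [AlgEquiv.mul_apply, hal' τ, hal' σ, map_mul, mul_smul, AlgEquiv.mul_apply]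
  have hone : ∀ (σ : U ≃ₐ[Q] U) (ω : Ω), res K L Q U σ = 1 → (∀ x, σ (j ω x) = j ω x) →
      al σ ω = 1 := by
    intro σ ω hσ hx
    apply hal_eq
    intro x
    rw [hσ, one_smul, hx]
    rfl
  let Φ : (U ≃ₐ[Q] U) →* ((Ω → A) ⋊[mulAutArrow] (L ≃ₐ[K] L)) := MonoidHom.mk'
    (fun σ => ⟨fun ω => γ (al σ ((res K L Q U σ)⁻¹ • ω)), res K L Q U σ⟩) (by
      intro σ τ
      apply SemidirectProduct.ext
      · funext ω
        simp only [SemidirectProduct.mul_left, Pi.mul_apply]
        change γ (al (σ * τ) ((res K L Q U (σ * τ))⁻¹ • ω)) =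
          γ (al σ ((res K L Q U σ)⁻¹ • ω)) *
            γ (al τ ((res K L Q U τ)⁻¹ • (res K L Q U σ)⁻¹ • ω))
        rw [← map_mul, hmul, map_mul (res K L Q U), mul_inv_rev, mul_smul, smul_inv_smul]
      · exact map_mul _ _ _)
  have hΦl : ∀ σ ω, (Φ σ).left ω = γ (al σ ((res K L Q U σ)⁻¹ • ω)) := fun _ _ => rfl
  have hΦr : ∀ σ, (Φ σ).right = res K L Q U σ := fun _ => rfl
  let R : Subgroup (U ≃ₐ[Q] U) :=
    { carrier := {σ | ∀ y : U, IsAlgebraic K y → σ y = y}
      mul_mem' := by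
        intro σ τ h1 h2 y hy
        rw [AlgEquiv.mul_apply, h2 y hy, h1 y hy]
      one_mem' := fun _ _ => rfl
      inv_mem' := by
        intro σ h1 y hy
        have := h1 y hy
        rw [AlgEquiv.aut_inv, AlgEquiv.symm_apply_eq]
        exact this.symm }
  have hstar : ∀ (ω₀ : Ω) (a : A),
      (SemidirectProduct.inl (Pi.mulSingle ω₀ a) : (Ω → A) ⋊[mulAutArrow] (L ≃ₐ[K] L)) ∈
        R.map Φ := by
    intro ω₀ a
    obtain ⟨σ, hσC, hσj⟩ := star (K := K) (Q := Q) (U := U) (F := F) hreg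
      (cc K (tt K Q U c) ω₀) (mem_cc_of_isAlgebraic _ _) (tt K Q U c ω₀)
      (transcendental_cc _ _ hindep) (Q_mem_adjoin c d hd ω₀) (tt_mem_adjoin c ω₀)
      (j ω₀) (hjK ω₀) (hjt ω₀) (γ.symm a)
    have hres : res K L Q U σ = 1 := by
      ext x
      apply (algebraMap L U).injective
      rw [res_spec, hσC _ (L_mem_cc _ _ _)]
      rfl
    refine ⟨σ, fun y hy => hσC y (mem_cc_of_isAlgebraic _ _ y hy), ?_⟩
    apply SemidirectProduct.ext
    · funext ω
      rw [hΦl, hres, inv_one, one_smul, SemidirectProduct.left_inl]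
      by_cases h : ω = ω₀
      · subst h
        rw [Pi.mulSingle_eq_same]
        have h1 : al σ ω = γ.symm a := by
          apply hal_eq
          intro x
          rw [hres, one_smul, hσj]
        rw [h1, MulEquiv.apply_symm_apply]
      · rw [Pi.mulSingle_eq_of_ne h]
        rw [hone σ ω hres, map_one]
        intro x
        apply hσC
        apply image_mem_cc (tt K Q U c) ω₀ (j ω) (hjK ω)
        rw [hjt]
        exact mem_cc_of_ne _ _ ω h
    · rw [hΦr, hres, SemidirectProduct.right_inl]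
  have hinl : ∀ f : Ω → A,
      (SemidirectProduct.inl f : (Ω → A) ⋊[mulAutArrow] (L ≃ₐ[K] L)) ∈ R.map Φ := by
    intro f
    have h := Subgroup.pi_mem_of_mulSingle_mem
      (H := (R.map Φ).comap (SemidirectProduct.inl : (Ω → A) →* _)) f
      (fun i => hstar i (f i))
    exact h
  refine ⟨j, Φ, hjK, hjt, ?_, hΦr, fun f => ?_, ?_⟩
  · intro g
    obtain ⟨σ, hσ⟩ := res_surjective (K := K) (L := L) (Q := Q) (U := U) Ω g.right
    obtain ⟨τ, -, hτ⟩ := hinl (g.left * (Φ σ).left⁻¹)
    refine ⟨τ * σ, ?_⟩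
    rw [map_mul, hτ]
    apply SemidirectProduct.ext
    · rw [SemidirectProduct.mul_left, SemidirectProduct.left_inl, SemidirectProduct.right_inl,
        map_one, MulAut.one_apply, inv_mul_cancel_right]
    · rw [SemidirectProduct.mul_right, SemidirectProduct.right_inl, one_mul, hΦr, hσ]
  · obtain ⟨τ, h1, h2⟩ := hinl f
    exact ⟨τ, h1, h2⟩
  · intro σ h1 h2
    have hres : res K L Q U σ = 1 := by
      ext x
      apply (algebraMap L U).injective
      rw [res_spec, h2]
      rfl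
    apply SemidirectProduct.ext
    · funext ω
      rw [hΦl, hres, inv_one, one_smul, hone σ ω hres (h1 ω), map_one]
      rfl
    · rw [hΦr, hres]
      rfl

end phi

/-- Elements algebraic over `K` which are fixed by all automorphisms trivial on `L` lie in `L`. -/
theorem mem_L_of_fixed {K L Q U : Type} (Ω : Type) [Field K] [CharZero K] [Field L] [Algebra K L]
    [FiniteDimensional K L] [IsGalois K L]
    [Field Q] [Algebra (MvPolynomial Ω K) Q] [IsFractionRing (MvPolynomial Ω K) Q]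
    [Algebra K Q] [IsScalarTower K (MvPolynomial Ω K) Q] [Field U] [Algebra Q U]
    [IsAlgClosure Q U] [Algebra K U] [IsScalarTower K Q U] [Algebra L U] [IsScalarTower K L U]
    (y : U) (hy : IsAlgebraic K y)
    (h : ∀ σ : U ≃ₐ[Q] U, res K L Q U σ = 1 → σ y = y) : y ∈ Set.range (algebraMap L U) := by
  have hacU : IsAlgClosed U := IsAlgClosure.isAlgClosed Q
  let b := Module.finBasis K L
  obtain ⟨E, hE1, hE2, hE3⟩ := Pool.Agent.H298R2.Kuyk.exists_galois (Q := K) (F := U)
    (insert y (Set.range fun i => algebraMap L U (b i))) ((Set.finite_range _).insert y)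
    (by
      rintro x (rfl | ⟨i, rfl⟩)
      · exact hy.isIntegral
      · exact ((Algebra.IsAlgebraic.isAlgebraic (R := K) (b i)).algebraMap).isIntegral)
  have hLE : ∀ x : L, algebraMap L U x ∈ E := by
    intro x
    rw [← b.sum_repr x, map_sum]
    refine sum_mem fun i _ => ?_
    rw [Algebra.smul_def, map_mul, ← IsScalarTower.algebraMap_apply K L U]
    exact mul_mem (E.algebraMap_mem _) (hE3 (Or.inr ⟨i, rfl⟩))
  let _ : Algebra L E := ((algebraMap L U).codRestrict E.toSubfield hLE).toAlgebra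
  have hLEU : ∀ x : L, ((algebraMap L E x : E) : U) = algebraMap L U x := fun _ => rfl
  have t1 : IsScalarTower K L E := IsScalarTower.of_algebraMap_eq fun k => by
    apply Subtype.ext
    rw [hLEU, ← IsScalarTower.algebraMap_apply K L U]
    rfl
  have hfd : FiniteDimensional L E := FiniteDimensional.right K L E
  have hgal : IsGalois L E := IsGalois.tower_top_of_isGalois K L E
  have hyE : y ∈ E := hE3 (Or.inl rfl)
  have h1 : (⟨y, hyE⟩ : E) ∈ Set.range (algebraMap L E) := by
    rw [IsGalois.mem_range_algebraMap_iff_fixed]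
    intro f
    obtain ⟨σ, hσ⟩ := res_surjective (K := K) (L := E) (Q := Q) (U := U) Ω
      (f.restrictScalars K)
    have hσE : ∀ x : E, σ (x : U) = ((f x : E) : U) := by
      intro x
      have h2 := res_spec (K := K) (L := E) (Q := Q) (U := U) σ x
      rw [hσ] at h2
      exact h2.symm
    have h3 : res K L Q U σ = 1 := by
      ext x
      apply (algebraMap L U).injective
      rw [res_spec, ← hLEU, hσE, AlgEquiv.commutes]
      rfl
    apply Subtype.ext
    rw [← hσE]
    exact h σ h3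
  obtain ⟨x, hx⟩ := h1
  exact ⟨x, by rw [← hLEU, hx]⟩

end Pool.Agent.TH444.WC
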