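import Mathlib

/-!
# Regular extensions of `K(t)` and algebraically closed fields of constants

Let `F` be a finite extension of `K(t)` in which `K` is algebraically closed, embedded in an
algebraically closed field `U`.  If `C` is an intermediate field of `U/K` containing all elements of
`U` which are algebraic over `K`, and `t` is transcendental over `C`, then `F ∩ C(t) = K(t)`.
-/

set_option autoImplicit false

open Polynomial

namespace Pool.Agent.TH444.WC

attribute [local instance] Polynomial.algebra in
theorem coeff_integral {K C : Type} [Field K] [Field C] [Algebra K C] (p : C[X])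
    (hp : (mapRingHom (algebraMap K C)).IsIntegralElem p) (n : ℕ) :
    IsIntegral K (p.coeff n) :=
  IsIntegral.coeff (R := K) (S := C) (p := p) hp n

/-- An element of `C(t)` integral over `C[t]` is in `C[t]`. -/
theorem mem_poly {C U : Type} [Field C] [Field U] (ev : C[X] →+* U)
    (hev : Function.Injective ev) (u : U) (r s : C[X]) (hs : s ≠ 0) (hu : u * ev s = ev r)
    (hint : ev.IsIntegralElem u) : ∃ p : C[X], ev p = u := by
  let _ : Algebra C[X] U := ev.toAlgebra
  let Fr := FractionRing C[X]
  let ι : Fr →+* U := IsFractionRing.lift (A := C[X]) hev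
  have hι : ∀ a : C[X], ι (algebraMap C[X] Fr a) = ev a := fun a =>
    IsFractionRing.lift_algebraMap hev a
  let ι' : Fr →ₐ[C[X]] U := { ι with commutes' := hι }
  let z : Fr := algebraMap C[X] Fr r / algebraMap C[X] Fr s
  have hs0 : ev s ≠ 0 := fun h => hs (hev (by rw [h, map_zero]))
  have hz : ι z = u := by
    simp only [z]
    rw [map_div₀, hι, hι, ← hu, mul_div_assoc, div_self hs0, mul_one]
  have hzi : IsIntegral C[X] z := by
    have h1 : IsIntegral C[X] (ι' z) := by
      change IsIntegral C[X] (ι z)
      rw [hz]; exact hint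
    exact (isIntegral_algHom_iff ι' ι'.toRingHom.injective).1 h1
  obtain ⟨p, hp⟩ := IsIntegrallyClosed.isIntegral_iff.1 hzi
  exact ⟨p, by rw [← hι, hp, hz]⟩

/-- An element algebraic over a subfield `k` of the algebraically closed field `U`, fixed by all
automorphisms of the relative algebraic closure of `k` is in `k`. -/
theorem mem_of_fixed {U : Type} [Field U] [CharZero U] [IsAlgClosed U] (k : Subfield U) (c : U)
    (hc : IsAlgebraic k c)
    (hfix : ∀ f : (algebraicClosure k U) ≃ₐ[k] (algebraicClosure k U),
      ((f ⟨c, mem_algebraicClosure_iff.2 hc⟩ : algebraicClosure k U) : U) = c) : c ∈ k := by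
  have h1 : IsAlgClosure k (algebraicClosure k U) := inferInstance
  have h2 : Normal k (algebraicClosure k U) := IsAlgClosure.normal k _
  have h3 : Algebra.IsSeparable k (algebraicClosure k U) :=
    Algebra.IsAlgebraic.isSeparable_of_perfectField
  have h4 : IsGalois k (algebraicClosure k U) := ⟨⟩
  have h5 := (InfiniteGalois.mem_range_algebraMap_iff_fixed
    (k := k) (K := algebraicClosure k U) ⟨c, mem_algebraicClosure_iff.2 hc⟩).2
      (fun f => Subtype.ext (hfix f))
  obtain ⟨a, ha⟩ := h5
  have h6 := congrArg (fun z : algebraicClosure k U => (z : U)) ha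
  simp only at h6
  rw [← h6]
  exact a.2

theorem descend {K U F : Type} [Field K] [Field U] [Field F] [CharZero U] [Algebra K U]
    [IsAlgClosed U] [Algebra (RatFunc K) F] [Algebra K F] [IsScalarTower K (RatFunc K) F]
    [FiniteDimensional (RatFunc K) F]
    (hreg : ∀ y : F, IsAlgebraic K y → y ∈ Set.range (algebraMap K F))
    (C : IntermediateField K U) (hC : ∀ z : U, IsAlgebraic K z → z ∈ C) (t : U)
    (ht : Transcendental C t)
    (j : F →+* U) (hjK : ∀ k : K, j (algebraMap K F k) = algebraMap K U k)
    (hjt : j (algebraMap (RatFunc K) F RatFunc.X) = t)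
    (x : F) (hx : j x ∈ IntermediateField.adjoin C {t}) :
    x ∈ Set.range (algebraMap (RatFunc K) F) := by
  classical
  let algPF : Algebra K[X] F :=
    ((algebraMap (RatFunc K) F).comp (algebraMap K[X] (RatFunc K))).toAlgebra
  have tow : IsScalarTower K[X] (RatFunc K) F := IsScalarTower.of_algebraMap_eq fun _ => rfl
  have hPF : ∀ q : K[X], algebraMap K[X] F q =
    algebraMap (RatFunc K) F (algebraMap K[X] (RatFunc K) q) := fun _ => rfl
  have hinjPF : Function.Injective (algebraMap K[X] F) := by
    intro a b hab
    rw [hPF, hPF] at hab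
    exact IsFractionRing.injective K[X] (RatFunc K) ((algebraMap (RatFunc K) F).injective hab)
  -- the evaluation
  let ev : C[X] →+* U := ((Polynomial.aeval t : C[X] →ₐ[C] U) : C[X] →+* U)
  have hevdef : ∀ p : C[X], ev p = Polynomial.aeval t p := fun _ => rfl
  have hev : Function.Injective ev := transcendental_iff_injective.1 ht
  let φ : K[X] →+* C[X] := mapRingHom (algebraMap K C)
  have hcomp : j.comp (algebraMap K[X] F) = ev.comp φ := by
    apply Polynomial.ringHom_ext
    · intro k
      simp only [RingHom.comp_apply]
      rw [hPF]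
      have h1 : algebraMap K[X] (RatFunc K) (Polynomial.C k) = algebraMap K (RatFunc K) k := rfl
      rw [h1, ← IsScalarTower.algebraMap_apply K (RatFunc K) F, hjK]
      change _ = ev (mapRingHom (algebraMap K C) (Polynomial.C k))
      rw [coe_mapRingHom, Polynomial.map_C, hevdef, Polynomial.aeval_C]
      rfl
    · simp only [RingHom.comp_apply]
      rw [hPF, RatFunc.algebraMap_X, hjt]
      change _ = ev (mapRingHom (algebraMap K C) Polynomial.X)
      rw [coe_mapRingHom, Polynomial.map_X, hevdef, Polynomial.aeval_X]
  -- reduction to integral elements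
  have halg : IsAlgebraic K[X] x := by
    rw [IsFractionRing.isAlgebraic_iff K[X] (RatFunc K) F]
    exact Algebra.IsAlgebraic.isAlgebraic x
  obtain ⟨r0, hr0, hr0i⟩ := halg.exists_integral_multiple
  suffices h : ∃ q : K[X], algebraMap K[X] F q = r0 • x by
    obtain ⟨q, hq⟩ := h
    refine ⟨algebraMap K[X] (RatFunc K) q / algebraMap K[X] (RatFunc K) r0, ?_⟩
    rw [map_div₀, ← hPF, ← hPF, hq, Algebra.smul_def, mul_comm, mul_div_assoc, div_self, mul_one]
    intro h0
    exact hr0 (hinjPF (by rw [h0, map_zero]))
  set x' := r0 • x with hx'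
  have hjx' : j x' ∈ IntermediateField.adjoin C {t} := by
    rw [hx', Algebra.smul_def, map_mul]
    refine mul_mem ?_ hx
    have h1 := RingHom.congr_fun hcomp r0
    simp only [RingHom.comp_apply] at h1
    rw [h1, hevdef]
    rw [IntermediateField.mem_adjoin_simple_iff]
    exact ⟨φ r0, 1, by simp⟩
  obtain ⟨r, s, hrs⟩ := (IntermediateField.mem_adjoin_simple_iff C _).1 hjx'
  have hint : ev.IsIntegralElem (j x') := by
    obtain ⟨g, hg, hg0⟩ := hr0i
    refine ⟨g.map φ, hg.map φ, ?_⟩
    rw [Polynomial.eval₂_map, ← hcomp]
    have h1 := congrArg j hg0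
    rw [Polynomial.hom_eval₂, map_zero] at h1
    exact h1
  obtain ⟨p, hp⟩ : ∃ p : C[X], ev p = j x' := by
    by_cases hs : s = 0
    · refine ⟨0, ?_⟩
      rw [hrs, hs]; simp
    · have hs0 : ev s ≠ 0 := fun h => hs (hev (by rw [h, map_zero]))
      refine mem_poly ev hev (j x') r s hs ?_ hint
      rw [hrs, hevdef, hevdef]
      rw [hevdef] at hs0
      field_simp
  have hpint : φ.IsIntegralElem p := by
    obtain ⟨g, hg, hg0⟩ := hr0i
    refine ⟨g, hg, ?_⟩
    apply hev
    rw [Polynomial.hom_eval₂, hp, ← hcomp, map_zero]
    have h1 := congrArg j hg0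
    rw [Polynomial.hom_eval₂, map_zero] at h1
    exact h1
  have hcoef : ∀ n, IsIntegral K (p.coeff n) := fun n => coeff_integral p hpint n
  have hcoefU : ∀ n, IsAlgebraic K ((p.coeff n : C) : U) := by
    intro n
    have h1 : IsIntegral K (algebraMap C U (p.coeff n)) := (hcoef n).map (IsScalarTower.toAlgHom K C U)
    exact h1.isAlgebraic
  -- the coefficients are in the image of `F`
  let k' : Subfield U := j.fieldRange
  have hKk' : ∀ a : K, algebraMap K U a ∈ k' := fun a => ⟨algebraMap K F a, hjK a⟩
  have halgk : ∀ z : U, IsAlgebraic K z → IsAlgebraic k' z := by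
    intro z hz
    let _ : Algebra K k' := (RingHom.codRestrict (algebraMap K U) k' hKk').toAlgebra
    have : IsScalarTower K k' U := IsScalarTower.of_algebraMap_eq fun _ => rfl
    exact hz.tower_top k'
  have htk : t ∈ k' := ⟨_, hjt⟩
  have hmem : ∀ n, ((p.coeff n : C) : U) ∈ k' := by
    intro n
    apply mem_of_fixed k' _ (halgk _ (hcoefU n))
    intro f
    -- the conjugate polynomial
    let co : ℕ → algebraicClosure k' U := fun m =>
      ⟨_, mem_algebraicClosure_iff.2 (halgk _ (hcoefU m))⟩
    have hco : ∀ m, ((co m : algebraicClosure k' U) : U) = ((p.coeff m : C) : U) := fun _ => rfl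
    let κ : K →+* k' := RingHom.codRestrict (algebraMap K U) k' hKk'
    let κE : K →+* algebraicClosure k' U := (algebraMap k' (algebraicClosure k' U)).comp κ
    have hκE : (algebraMap (algebraicClosure k' U) U).comp κE = algebraMap K U := by
      ext a; rfl
    have hfκ : (f : algebraicClosure k' U →+* algebraicClosure k' U).comp κE = κE := by
      ext a
      change ((f (algebraMap k' _ (κ a)) : algebraicClosure k' U) : U) = _
      rw [AlgEquiv.commutes]
      rfl
    have hfalg : ∀ m, IsAlgebraic K ((f (co m) : algebraicClosure k' U) : U) := by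
      intro m
      obtain ⟨g, hg0, hg⟩ := hcoefU m
      refine ⟨g, hg0, ?_⟩
      have h3 : Polynomial.eval₂ κE (co m) g = 0 := by
        apply (algebraMap (algebraicClosure k' U) U).injective
        rw [map_zero, Polynomial.hom_eval₂, hκE]
        exact hg
      have h4 := congrArg (f : algebraicClosure k' U →+* algebraicClosure k' U) h3
      rw [Polynomial.hom_eval₂, hfκ, map_zero] at h4
      have h5 := congrArg (algebraMap (algebraicClosure k' U) U) h4
      rw [Polynomial.hom_eval₂, hκE, map_zero] at h5
      exact h5
    let cf : ℕ → C := fun m => ⟨_, hC _ (hfalg m)⟩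
    let p' : C[X] := ∑ m ∈ Finset.range (p.natDegree + 1), Polynomial.monomial m (cf m)
    have hp' : ev p' = ev p := by
      have e1 : ev p = ∑ m ∈ Finset.range (p.natDegree + 1), ((p.coeff m : C) : U) * t ^ m := by
        rw [hevdef, Polynomial.aeval_eq_sum_range]
        apply Finset.sum_congr rfl
        intro m _
        rw [Algebra.smul_def]; rfl
      have e2 : ev p' = ∑ m ∈ Finset.range (p.natDegree + 1), ((cf m : C) : U) * t ^ m := by
        simp only [p', map_sum]
        apply Finset.sum_congr rfl
        intro m _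
        rw [hevdef, Polynomial.aeval_monomial]; rfl
      -- apply `f` to the relation
      have ht' : IsAlgebraic k' t := isAlgebraic_algebraMap (⟨t, htk⟩ : k')
      let tE : algebraicClosure k' U := algebraMap k' _ ⟨t, htk⟩
      let uE : algebraicClosure k' U := algebraMap k' _ ⟨j x', ⟨x', rfl⟩⟩
      have e3 : uE = ∑ m ∈ Finset.range (p.natDegree + 1), co m * tE ^ m := by
        apply Subtype.ext
        rw [AddSubmonoidClass.coe_finsetSum]
        simp only [MulMemClass.coe_mul, SubmonoidClass.coe_pow]
        change j x' = ∑ m ∈ Finset.range (p.natDegree + 1), ((p.coeff m : C) : U) * t ^ m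
        rw [← e1, hp]
      have e4 := congrArg f e3
      rw [map_sum, AlgEquiv.commutes] at e4
      simp only [map_mul, map_pow, tE, AlgEquiv.commutes] at e4
      have e5 := congrArg (algebraMap (algebraicClosure k' U) U) e4
      rw [map_sum] at e5
      simp only [map_mul, map_pow] at e5
      rw [e2, hp]
      exact e5.symm
    have hpp := hev hp'
    have hn : ((p'.coeff n : C) : U) = ((p.coeff n : C) : U) :=
      congrArg (fun q : C[X] => ((q.coeff n : C) : U)) hpp
    by_cases hnd : n ≤ p.natDegree
    · have h6 : p'.coeff n = cf n := by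
        simp only [p', Polynomial.finset_sum_coeff, Polynomial.coeff_monomial]
        rw [Finset.sum_ite_eq' (Finset.range (p.natDegree + 1)) n]
        rw [if_pos (Finset.mem_range.2 (Nat.lt_succ_of_le hnd))]
      rw [h6] at hn
      exact hn
    · have h7 : p.coeff n = 0 := Polynomial.coeff_eq_zero_of_natDegree_lt (not_le.1 hnd)
      have h8 : co n = 0 := by
        apply Subtype.ext
        rw [hco, h7]; rfl
      change ((f (co n) : algebraicClosure k' U) : U) = _
      rw [h8, map_zero, h7]; rfl
  -- the coefficients are in `K`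
  have hK : ∀ n, ∃ a : K, algebraMap K C a = p.coeff n := by
    intro n
    obtain ⟨z, hz⟩ := hmem n
    have hzalg : IsAlgebraic K z := by
      obtain ⟨g, hg0, hg⟩ := hcoefU n
      refine ⟨g, hg0, ?_⟩
      apply j.injective
      rw [map_zero, Polynomial.aeval_def, Polynomial.hom_eval₂]
      have h1 : j.comp (algebraMap K F) = algebraMap K U := RingHom.ext hjK
      rw [h1, hz]
      exact hg
    obtain ⟨a, ha⟩ := hreg z hzalg
    refine ⟨a, ?_⟩
    apply (algebraMap C U).injective
    rw [← IsScalarTower.algebraMap_apply K C U, ← hjK, ha, hz]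
    rfl
  obtain ⟨q, hq⟩ : ∃ q : K[X], q.map (algebraMap K C) = p := by
    have h1 : p ∈ Polynomial.lifts (algebraMap K C) := by
      rw [Polynomial.lifts_iff_coeff_lifts]
      intro n
      obtain ⟨a, ha⟩ := hK n
      exact ⟨a, ha⟩
    exact (Polynomial.mem_lifts _).1 h1
  refine ⟨q, ?_⟩
  apply j.injective
  have h1 := RingHom.congr_fun hcomp q
  simp only [RingHom.comp_apply] at h1
  rw [h1, ← hp]
  change ev (mapRingHom (algebraMap K C) q) = _
  rw [coe_mapRingHom, hq]

end Pool.Agent.TH444.WC
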