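import Pool.Agent.TH444.WC.Eq
import Pool.Agent.TH444.WC.Star

/-!
# The generic extension with group a wreath product
-/

set_option autoImplicit false

open Polynomial

namespace Pool.Agent.TH444.WC

section gen

variable {K L Ω Q U : Type} [Field K] [Field L] [Algebra K L] [FiniteDimensional K L] [IsGalois K L]
  [Fintype Ω] [DecidableEq Ω] [MulAction (L ≃ₐ[K] L) Ω]
  [Field Q] [Algebra (MvPolynomial Ω K) Q] [IsFractionRing (MvPolynomial Ω K) Q]
  [Algebra K Q] [IsScalarTower K (MvPolynomial Ω K) Q] [Field U] [Algebra Q U] [IsAlgClosure Q U]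
  [Algebra K U] [IsScalarTower K Q U] [Algebra L U] [IsScalarTower K L U]

variable (K Ω Q U) in
/-- the variables -/
noncomputable def yy (i : Ω) : U :=
  algebraMap Q U (algebraMap (MvPolynomial Ω K) Q (MvPolynomial.X i))

omit [Fintype Ω] [DecidableEq Ω] [IsAlgClosure Q U]
  [IsFractionRing (MvPolynomial Ω K) Q] in
theorem aeval_yy (p : MvPolynomial Ω K) :
    MvPolynomial.aeval (yy K Ω Q U) p = algebraMap Q U (algebraMap (MvPolynomial Ω K) Q p) := by
  have h : ((MvPolynomial.aeval (yy K Ω Q U) : MvPolynomial Ω K →ₐ[K] U) :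
      MvPolynomial Ω K →+* U) = (algebraMap Q U).comp (algebraMap (MvPolynomial Ω K) Q) := by
    apply MvPolynomial.ringHom_ext
    · intro k
      simp only [RingHom.coe_coe, MvPolynomial.algHom_C, RingHom.comp_apply]
      have h1 : (MvPolynomial.C k : MvPolynomial Ω K) = algebraMap K (MvPolynomial Ω K) k := rfl
      rw [h1, ← IsScalarTower.algebraMap_apply K (MvPolynomial Ω K) Q,
        ← IsScalarTower.algebraMap_apply K Q U]
    · intro i
      simp [yy]
  exact RingHom.congr_fun h p

omit [Fintype Ω] [DecidableEq Ω] [IsAlgClosure Q U] in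
theorem indep_yy : AlgebraicIndependent K (yy K Ω Q U) := by
  rw [algebraicIndependent_iff_injective_aeval]
  intro p q h
  rw [aeval_yy, aeval_yy] at h
  exact IsFractionRing.injective (MvPolynomial Ω K) Q ((algebraMap Q U).injective h)

omit [Fintype Ω] [DecidableEq Ω] [IsAlgClosure Q U] [IsGalois K L] [MulAction (L ≃ₐ[K] L) Ω] in
theorem indep_yy_L : AlgebraicIndependent L (yy K Ω Q U) := by
  have h := indep_yy (K := K) (Ω := Ω) (Q := Q) (U := U)
  have halg : Algebra.IsAlgebraic K L := inferInstance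
  exact (Algebra.IsAlgebraic.algebraicIndependent_iff K L).1 h

variable (K Q U) in
/-- the conjugate parameters -/
noncomputable def tt (c : Ω → Ω → L) (ω : Ω) : U :=
  ∑ i, algebraMap L U (c i ω) * yy K Ω Q U i

omit [IsAlgClosure Q U] [IsGalois K L] [FiniteDimensional K L] [IsScalarTower K L U]
  [IsScalarTower K (MvPolynomial Ω K) Q] [IsScalarTower K Q U] [MulAction (L ≃ₐ[K] L) Ω]
  [IsFractionRing (MvPolynomial Ω K) Q] [Algebra K Q] [Algebra K U] in
theorem yy_eq (c d : Ω → Ω → L)
    (hd : ∀ i j, ∑ ω, d i ω * c j ω = if i = j then 1 else 0) (i : Ω) :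
    yy K Ω Q U i = ∑ ω, algebraMap L U (d i ω) * tt K Q U c ω := by
  have h1 : ∀ ω, algebraMap L U (d i ω) * tt K Q U c ω =
      ∑ j, algebraMap L U (d i ω * c j ω) * yy K Ω Q U j := by
    intro ω
    rw [tt, Finset.mul_sum]
    apply Finset.sum_congr rfl
    intro j _
    rw [map_mul]; ring
  rw [Finset.sum_congr rfl (fun ω _ => h1 ω), Finset.sum_comm]
  have h2 : ∀ j, ∑ ω, algebraMap L U (d i ω * c j ω) * yy K Ω Q U j =
      (if i = j then 1 else 0) * yy K Ω Q U j := by
    intro j
    rw [← Finset.sum_mul, ← map_sum, hd]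
    split_ifs <;> simp
  rw [Finset.sum_congr rfl (fun j _ => h2 j)]
  simp

omit [IsAlgClosure Q U] [IsGalois K L] [MulAction (L ≃ₐ[K] L) Ω] in
theorem indep_tt (c d : Ω → Ω → L)
    (hd : ∀ ω ω', ∑ i, c i ω * d i ω' = if ω = ω' then 1 else 0) :
    AlgebraicIndependent K (tt K Q U c) := by
  have hL : AlgebraicIndependent L (tt K Q U c) := by
    rw [algebraicIndependent_iff_injective_aeval]
    let φ : MvPolynomial Ω L →ₐ[L] MvPolynomial Ω L :=
      MvPolynomial.aeval fun ω => ∑ i, MvPolynomial.C (c i ω) * MvPolynomial.X i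
    let ψ : MvPolynomial Ω L →ₐ[L] MvPolynomial Ω L :=
      MvPolynomial.aeval fun i => ∑ ω, MvPolynomial.C (d i ω) * MvPolynomial.X ω
    have h1 : (ψ.comp φ) = AlgHom.id L _ := by
      apply MvPolynomial.algHom_ext
      intro ω
      simp only [AlgHom.comp_apply, φ, ψ, MvPolynomial.aeval_X, map_sum, map_mul,
        MvPolynomial.algHom_C, AlgHom.id_apply, MvPolynomial.algebraMap_eq]
      have h2 : ∀ i, MvPolynomial.C (c i ω) * ∑ ω', MvPolynomial.C (d i ω') * MvPolynomial.X ω' =
          ∑ ω', (MvPolynomial.C (c i ω * d i ω') * MvPolynomial.X ω' : MvPolynomial Ω L) := by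
        intro i
        rw [Finset.mul_sum]
        apply Finset.sum_congr rfl
        intro ω' _
        rw [MvPolynomial.C_mul]; ring
      rw [Finset.sum_congr rfl (fun i _ => h2 i), Finset.sum_comm]
      have h3 : ∀ ω', ∑ i, (MvPolynomial.C (c i ω * d i ω') * MvPolynomial.X ω' :
          MvPolynomial Ω L) = (if ω = ω' then 1 else 0) * MvPolynomial.X ω' := by
        intro ω'
        rw [← Finset.sum_mul, ← map_sum, hd]
        split_ifs <;> simp
      rw [Finset.sum_congr rfl (fun ω' _ => h3 ω')]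
      simp
    have hφ : Function.Injective φ := by
      intro p q hpq
      have h2 := congrArg ψ hpq
      rw [← AlgHom.comp_apply, ← AlgHom.comp_apply, h1] at h2
      simpa using h2
    have h4 : (MvPolynomial.aeval (tt K Q U c) : MvPolynomial Ω L →ₐ[L] U) =
        (MvPolynomial.aeval (yy K Ω Q U)).comp φ := by
      apply MvPolynomial.algHom_ext
      intro ω
      simp only [AlgHom.comp_apply, φ, MvPolynomial.aeval_X, map_sum, map_mul,
        MvPolynomial.algHom_C]
      rfl
    rw [h4, AlgHom.coe_comp]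
    exact (algebraicIndependent_iff_injective_aeval.1 indep_yy_L).comp hφ
  exact hL.restrictScalars (FaithfulSMul.algebraMap_injective K L)

end gen

end Pool.Agent.TH444.WC
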